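import Pool.Agent.Helper58.Penta.Core
import Pool.Agent.Helper58.Penta.Centroid
import Pool.Agent.Helper58.Penta.Facets

open scoped InnerProductSpace
open MeasureTheory
open Pool.Agent.Helper58.Penta

namespace Pool.Agent.Results.MP_343cde_co.PentahedraTwoStableFaces

/-- Every uniform convex pentahedron is stable on at least two of its faces. -/
theorem result (P : Set E3) (hP : IsConvexPolyhedron P) (h5 : {F | IsFace P F}.ncard = 5) :
    2 ≤ {F | IsFace P F ∧ StableOn P F}.ncard := by
  classical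
  obtain ⟨t, ht⟩ := exists_irr hP
  obtain ⟨hb, hi, -⟩ := hP
  have hcard : t.card = 5 := by rw [← ht.ncard_faces hi]; exact h5
  have hle : ∀ x ∈ P, ∀ a ∈ t, ⟪a.1, x⟫_ℝ ≤ a.2 := by
    intro x hx a ha
    rw [ht.rep] at hx
    exact hx a ha
  have hconv : Convex ℝ P := by
    intro x hx y hy r s hr hs hrs
    have hx' := hle x hx
    have hy' := hle y hy
    rw [ht.rep]
    intro a ha
    rw [inner_add_right, inner_smul_right, inner_smul_right]
    have h1 := mul_le_mul_of_nonneg_left (hx' a ha) hr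
    have h2 := mul_le_mul_of_nonneg_left (hy' a ha) hs
    have h3 : r * a.2 + s * a.2 = a.2 := by rw [← add_mul, hrs, one_mul]
    linarith
  have hclosed : IsClosed P := by
    have h1 : P = ⋂ b ∈ (t : Set (E3 × ℝ)), {x : E3 | ⟪b.1, x⟫_ℝ ≤ b.2} := by
      rw [ht.rep]
      ext x; simp
    rw [h1]
    exact isClosed_biInter fun b _ => isClosed_le (by fun_prop) continuous_const
  have hcomp : IsCompact P := Metric.isCompact_of_isClosed_isBounded hclosed hb
  have hmoment : ∀ a ∈ t, ∀ z ∈ P,
      4 * ⟪a.1, centroid P - z⟫_ℝ ≤ 3 * (a.2 - ⟪a.1, z⟫_ℝ) :=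
    fun a ha z hz => centroid_ineq hconv hcomp hi (fun x hx => hle x hx a ha) hz
  have hpos : ∀ a ∈ t, 0 < a.2 - ⟪a.1, centroid P⟫_ℝ := by
    intro a ha
    obtain ⟨z, hz⟩ := hi
    have h1 := hmoment a ha z (interior_subset hz)
    have h2 := lt_of_mem_interior (ht.ne_zero ha) (fun x hx => hle x hx a ha) hz
    rw [inner_sub_right] at h1
    linarith
  have hne : Nonempty t := by
    have : 0 < t.card := by rw [hcard]; norm_num
    obtain ⟨a, ha⟩ := Finset.card_pos.1 this
    exact ⟨⟨a, ha⟩⟩
  have hcore := core (ι := t) (by simp [hcard]) (fun i => i.1.1)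
    (fun i => i.1.2 - ⟪i.1.1, centroid P⟫_ℝ)
    (fun i => ht.unit i.1 i.2) (fun i => hpos i.1 i.2)
    (fun i j hij => ht.inner_lt_one i.2 j.2 (fun h => hij (Subtype.ext h)))
    (by
      intro v
      by_cases hv : v = 0
      · obtain ⟨i⟩ := hne
        exact ⟨i, by rw [hv, inner_zero_right]⟩
      · obtain ⟨a, ha, h⟩ := ht.exists_inner_nonpos hb hi v hv
        exact ⟨⟨a, ha⟩, h.le⟩)
    (by
      rintro ⟨a, ha⟩
      by_contra hcon
      push Not at hcon
      set G := centroid P with hG
      set r := a.2 - ⟪a.1, G⟫_ℝ with hr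
      have hy : G - (3 * r) • a.1 ∈ interior P := by
        refine ht.mem_int fun b hbt => ?_
        have h1 := hcon ⟨b, hbt⟩
        simp only at h1
        rw [inner_sub_right, inner_smul_right]
        linarith
      have h2 := lt_of_mem_interior (u := -a.1) (c := 3 * a.2 - 4 * ⟪a.1, G⟫_ℝ)
        (neg_ne_zero.2 (ht.ne_zero ha))
        (by
          intro x hx
          have h1 := hmoment a ha x hx
          rw [inner_sub_right] at h1
          rw [inner_neg_left]
          linarith) hy
      rw [inner_neg_left, inner_sub_right, inner_smul_right, real_inner_self_eq_norm_sq,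
        ht.unit a ha] at h2
      rw [hr] at h2
      linarith)
  obtain ⟨i, j, hij, hsi, hsj⟩ := hcore
  have hstab : ∀ i : t, (∀ l : t, l ≠ i →
      (i.1.2 - ⟪i.1.1, centroid P⟫_ℝ) * ⟪i.1.1, l.1.1⟫_ℝ < l.1.2 - ⟪l.1.1, centroid P⟫_ℝ) →
      facet P i.1 ∈ {F | IsFace P F ∧ StableOn P F} := by
    intro i h
    refine ⟨ht.isFace_facet i.2, ht.stableOn i.2 ?_⟩
    intro b hbt hba
    exact h ⟨b, hbt⟩ (fun he => hba (congrArg Subtype.val he))
  have hne2 : facet P i.1 ≠ facet P j.1 := by
    intro he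
    exact hij (Subtype.ext (ht.facet_injOn i.2 j.2 he))
  have hfin : {F | IsFace P F ∧ StableOn P F}.Finite := by
    have h1 : {F | IsFace P F}.Finite := by
      rw [ht.faces_eq hi]
      exact t.finite_toSet.image _
    exact h1.subset fun F hF => hF.1
  rw [← Set.ncard_pair hne2]
  apply Set.ncard_le_ncard _ hfin
  rintro F (rfl | rfl)
  · exact hstab i hsi
  · exact hstab j hsj

end Pool.Agent.Results.MP_343cde_co.PentahedraTwoStableFaces
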